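import Mathlib
import Pool.Agent.R309.SG.Main

set_option autoImplicit false

/-!
# Countable symmetry groups of continuous functions on the line

The class `C_1`: the countable groups realized on the line are the trivial group, the group of
order two, the infinite cyclic group and the infinite dihedral group. The symmetry group of a
continuous function on the line is countable exactly when the function is not constant on any
nonempty open interval.
-/

namespace Pool.Agent.Results.MP_af0fcb_gt.DimensionOne

/-- `G(f, E)`: the group of all homeomorphisms `A` of `E` onto itself with `f (A p) = f p` for all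
points `p` of `E`. -/
def G (E : Type) [TopologicalSpace E] (f : E → ℝ) : Subgroup (E ≃ₜ E) where
  carrier := {A | ∀ p, f (A p) = f p}
  mul_mem' := by
    intro A B hA hB p
    show f (A (B p)) = f p
    rw [hA, hB]
  one_mem' := fun p => rfl
  inv_mem' := by
    intro A hA p
    have h := hA (A⁻¹ p)
    have h2 : A (A⁻¹ p) = p := A.apply_symm_apply p
    rw [h2] at h
    exact h.symm

/-- `H` is realized on `E`: it is isomorphic to `G(f, E)` for a continuous `f : E → ℝ`. -/
def RealizedOn (H : Type) [Group H] (E : Type) [TopologicalSpace E] : Prop :=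
  ∃ f : E → ℝ, Continuous f ∧ Nonempty (H ≃* G E f)

/-- (1) A countable group is realized on the line if and only if it is trivial, of order two,
infinite cyclic or infinite dihedral. (2) For continuous `f : ℝ → ℝ` the group `G(f, ℝ)` is
countable if and only if `f` is not constant on any nonempty open interval. -/
theorem result :
    (∀ (H : Type) [Group H] [Countable H], RealizedOn H ℝ ↔
      (Subsingleton H ∨ Nonempty (H ≃* Multiplicative (ZMod 2)) ∨
        Nonempty (H ≃* Multiplicative ℤ) ∨ Nonempty (H ≃* DihedralGroup 0))) ∧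
    (∀ f : ℝ → ℝ, Continuous f → (Countable (G ℝ f) ↔
      ∀ a b : ℝ, a < b → ¬ ∃ c, ∀ x ∈ Set.Ioo a b, f x = c)) := by
  have hcls : ∀ f : ℝ → ℝ, Continuous f → R309.SG.NLC f →
      Subsingleton (G ℝ f) ∨ Nonempty (G ℝ f ≃* Multiplicative (ZMod 2)) ∨
        Nonempty (G ℝ f ≃* Multiplicative ℤ) ∨ Nonempty (G ℝ f ≃* DihedralGroup 0) :=
    fun f hf hN => R309.SG.nec (f := f) hf hN
  refine ⟨?_, ?_⟩
  · intro H _ _
    constructor
    · rintro ⟨f, hf, ⟨e⟩⟩
      have hG : Countable (G ℝ f) := e.symm.injective.countable
      rcases hcls f hf (R309.SG.NLC_of_countable hG) with h | ⟨⟨h⟩⟩ | ⟨⟨h⟩⟩ | ⟨⟨h⟩⟩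
      · exact Or.inl e.injective.subsingleton
      · exact Or.inr (Or.inl ⟨e.trans h⟩)
      · exact Or.inr (Or.inr (Or.inl ⟨e.trans h⟩))
      · exact Or.inr (Or.inr (Or.inr ⟨e.trans h⟩))
    · rintro (h | ⟨⟨h⟩⟩ | ⟨⟨h⟩⟩ | ⟨⟨h⟩⟩)
      · refine ⟨fun x => x, continuous_id, ?_⟩
        have h1 : Subsingleton (G ℝ fun x => x) := R309.SG.real_one
        exact ⟨{ toFun := fun _ => 1, invFun := fun _ => 1,
                 left_inv := fun _ => Subsingleton.elim _ _,
                 right_inv := fun _ => Subsingleton.elim _ _,
                 map_mul' := fun _ _ => by simp }⟩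
      · obtain ⟨e⟩ := R309.SG.real_two
        exact ⟨fun x => |x|, continuous_abs, ⟨h.trans e.symm⟩⟩
      · obtain ⟨e⟩ := R309.SG.real_Z
        exact ⟨R309.SG.f3, R309.SG.f3_cont, ⟨h.trans e.symm⟩⟩
      · obtain ⟨e⟩ := R309.SG.real_D
        exact ⟨R309.SG.f4, R309.SG.f4_cont, ⟨h.trans e.symm⟩⟩
  · intro f hf
    constructor
    · rintro hG a b hab ⟨c, hc⟩
      exact R309.SG.NC (f := f) hG hab (fun x h1 h2 => hc x ⟨h1, h2⟩)
    · intro hN
      rcases hcls f hf (fun a b c hab h => hN a b hab ⟨c, fun x hx => h x hx.1 hx.2⟩) with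
        h | ⟨⟨e⟩⟩ | ⟨⟨e⟩⟩ | ⟨⟨e⟩⟩
      · exact inferInstance
      · have : Finite (Multiplicative (ZMod 2)) := inferInstanceAs (Finite (ZMod 2))
        have : Finite (G ℝ f) := Finite.of_injective e e.injective
        exact inferInstance
      · exact e.injective.countable
      · have h1 : Countable (DihedralGroup 0) := by
          refine Function.Injective.countable (f := fun x : DihedralGroup 0 => match x with
            | DihedralGroup.r i => ((true, i) : Bool × ℤ)
            | DihedralGroup.sr i => ((false, i) : Bool × ℤ)) ?_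
          rintro (i | i) (j | j) hij
          · exact congrArg DihedralGroup.r (Prod.mk.inj hij).2
          · exact absurd (Prod.mk.inj hij).1 (by decide)
          · exact absurd (Prod.mk.inj hij).1 (by decide)
          · exact congrArg DihedralGroup.sr (Prod.mk.inj hij).2
        exact e.injective.countable

end Pool.Agent.Results.MP_af0fcb_gt.DimensionOne
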